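import Pool.Agent.helper81.DI.SpecB

/-!
# di:B4, the multiplication formula for irreducible characters
-/

set_option autoImplicit false

namespace Pool.Agent.DI

open Pool.Agent.helper58.DC

theorem B4 : B4_stmt := by
  classical
  intro H _ _ χ hχ x y
  obtain ⟨V, _, _, _, ρ, hirr, rfl⟩ := hχ
  have : Fintype H := Fintype.ofFinite H
  have hcomm : ∀ h : H, (∑ t : H, ρ (t * y * t⁻¹) : Module.End ℂ V) ∘ₗ ρ h =
      ρ h ∘ₗ (∑ t : H, ρ (t * y * t⁻¹) : Module.End ℂ V) := by
    intro h
    show (∑ t : H, ρ (t * y * t⁻¹) : Module.End ℂ V) * ρ h =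
      ρ h * (∑ t : H, ρ (t * y * t⁻¹) : Module.End ℂ V)
    rw [Finset.sum_mul, Finset.mul_sum]
    symm
    refine Fintype.sum_equiv (Equiv.mulLeft h) _ _ fun t => ?_
    rw [← map_mul, ← map_mul]
    congr 1
    rw [Equiv.coe_mulLeft]
    group
  obtain ⟨c, hc⟩ := (Representation.IsIrreducible.algebraMap_intertwiningMap_bijective_of_isAlgClosed
    (ρ := ρ)).2 ⟨(∑ t : H, ρ (t * y * t⁻¹) : Module.End ℂ V), hcomm⟩
  have hc' : (∑ t : H, ρ (t * y * t⁻¹) : Module.End ℂ V) = c • (1 : Module.End ℂ V) := by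
    have h3 := congrArg Representation.IntertwiningMap.toLinearMap hc
    rw [Representation.IntertwiningMap.algebraMap_apply] at h3
    exact h3.symm
  have hone : ρ.character 1 = LinearMap.trace ℂ V (1 : Module.End ℂ V) := by
    unfold Representation.character
    rw [map_one]
  have htr : (Nat.card H : ℂ) * ρ.character y = c * ρ.character 1 := by
    have h4 := congrArg (LinearMap.trace ℂ V) hc'
    rw [map_sum, map_smul, smul_eq_mul, ← hone] at h4
    rw [← h4]
    have h5 : ∀ t : H, LinearMap.trace ℂ V (ρ (t * y * t⁻¹)) = ρ.character y := by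
      intro t
      show ρ.character (t * y * t⁻¹) = ρ.character y
      exact Representation.char_conj ρ y t
    rw [Finset.sum_congr rfl fun t _ => h5 t, Finset.sum_const, Finset.card_univ, nsmul_eq_mul,
      Nat.card_eq_fintype_card]
  have htx : ∑ t : H, ρ.character (x * (t * y * t⁻¹)) = c * ρ.character x := by
    have h4 : LinearMap.trace ℂ V (ρ x * ∑ t : H, ρ (t * y * t⁻¹)) =
        LinearMap.trace ℂ V (ρ x * (c • (1 : Module.End ℂ V))) := by rw [hc']
    rw [Finset.mul_sum, map_sum, mul_smul_comm, mul_one, map_smul, smul_eq_mul] at h4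
    have h6 : c * ρ.character x = c * LinearMap.trace ℂ V (ρ x) := rfl
    rw [h6, ← h4]
    refine Finset.sum_congr rfl fun t _ => ?_
    rw [← map_mul]
    rfl
  rw [finsum_eq_sum_of_fintype, htx, mul_right_comm, htr]
  ring

end Pool.Agent.DI
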